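import Mathlib
import Pool.Agent.Y992.HE.Stm

set_option autoImplicit false
set_option linter.all false

/-! Project HE: choice of the parameters. -/

namespace Pool.Agent.Y447.HE

open Finset Filter Topology Pool.Agent.Y992.HE

theorem num_k (lam a b c : ℝ) (h0 : 0 < lam) (h1 : lam < 1) (hc : 0 < c) :
    ∃ k : ℕ, 1 ≤ k ∧
      (((k : ℝ) + 1) * lam ^ k) * (((k : ℝ) + 1) * a + b) ≤ c := by
  have habs : |lam| < 1 := by rw [abs_of_pos h0]; exact h1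
  have t2 := tendsto_pow_const_mul_const_pow_of_abs_lt_one 2 habs
  have t1 := tendsto_pow_const_mul_const_pow_of_abs_lt_one 1 habs
  have t0 := tendsto_pow_const_mul_const_pow_of_abs_lt_one 0 habs
  have t : Tendsto (fun k : ℕ => (((k : ℝ) + 1) * lam ^ k) *
      (((k : ℝ) + 1) * a + b)) atTop (𝓝 0) := by
    have := ((t2.const_mul a).add (t1.const_mul (2 * a + b))).add
      (t0.const_mul (a + b))
    simp only [mul_zero, add_zero] at this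
    refine this.congr fun k => ?_
    ring
  obtain ⟨k, hk⟩ := ((t.eventually (gt_mem_nhds hc)).and (eventually_ge_atTop 1)).exists
  exact ⟨k, hk.2, hk.1.le⟩

/-- Choice of the parameters. -/
theorem t_NUM : S_NUM := by
  intro ε hε hε1
  obtain ⟨q, hq⟩ : ∃ q : ℝ, q = 1 / (1 + ε) := ⟨_, rfl⟩
  have hq0 : 0 < q := by rw [hq]; positivity
  have hq1 : q < 1 := by
    rw [hq, div_lt_one (by linarith)]; linarith
  have hsq : √q * √q = q := Real.mul_self_sqrt hq0.le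
  have hsq0 : 0 < √q := Real.sqrt_pos.2 hq0
  have hsq1 : √q < 1 := by
    by_contra hc
    push Not at hc
    nlinarith
  have hqs : q < √q := by nlinarith
  obtain ⟨lam, hlam⟩ : ∃ lam : ℝ, lam = √(√q) := ⟨_, rfl⟩
  have hl2 : lam ^ 2 = √q := by rw [hlam]; exact Real.sq_sqrt hsq0.le
  have hl0 : 0 < lam := by rw [hlam]; exact Real.sqrt_pos.2 hsq0
  have hl1 : lam < 1 := by
    by_contra hc
    push Not at hc
    nlinarith
  have h1l : 0 < 1 - lam := by linarith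
  obtain ⟨M, hM⟩ : ∃ M : ℝ, M = 2 / ε * (1 / (1 - lam) + 1) + 4 := ⟨_, rfl⟩
  have hM0 : 0 ≤ M := by rw [hM]; positivity
  have h2e : 2 ≤ 2 / ε := by
    rw [le_div_iff₀ hε]; linarith
  obtain ⟨a, ha⟩ : ∃ a : ℝ, a = Real.log (2 / ε) := ⟨_, rfl⟩
  obtain ⟨b, hb⟩ : ∃ b : ℝ, b = 1 + Real.log 16 := ⟨_, rfl⟩
  obtain ⟨k, hk1, hk⟩ := num_k lam a b (ε / 128) hl0 hl1 (by positivity)
  have hwp : 1 ≤ (2 / ε) ^ (k + 1) := one_le_pow₀ (by linarith)
  obtain ⟨θ, hθ⟩ : ∃ θ : ℝ, θ = 1 / 16 / (2 / ε) ^ (k + 1) := ⟨_, rfl⟩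
  have hθ0 : 0 < θ := by rw [hθ]; positivity
  have hθ1 : θ ≤ 1 := by
    rw [hθ, div_le_one (by positivity)]
    linarith
  have hθ2 : (2 / ε) ^ (k + 1) * θ = 1 / 16 := by
    rw [hθ]
    have : (2 / ε) ^ (k + 1) ≠ 0 := by positivity
    field_simp
  obtain ⟨l, hl⟩ : ∃ l : ℝ, l = 1 + Real.log (1 / θ) := ⟨_, rfl⟩
  have hlθ : l = ((k : ℝ) + 1) * a + b := by
    have e1 : 1 / θ = (2 / ε) ^ (k + 1) * 16 := by
      rw [hθ]
      have : (2 / ε) ^ (k + 1) ≠ 0 := by positivity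
      field_simp
    rw [hl, e1, Real.log_mul (by positivity) (by norm_num), Real.log_pow, ← ha, hb]
    push_cast
    ring
  -- the choice of δ
  have c1 : ContinuousAt (fun δ : ℝ => 4 * (δ / ε * (1 + 2 / ε + 4 * M)) / (1 - lam) ^ 2) 0 := by
    fun_prop
  have c2 : ContinuousAt (fun δ : ℝ => 4 * (2 / ε *
      (4 * (δ / ε * (1 + 2 / ε + 4 * M)) / (1 - lam) ^ 2) + δ / ε * (1 + 2 / ε + 4 * M)) * l) 0 := by
    fun_prop
  have c3 : ContinuousAt (fun δ : ℝ => q * Real.exp (3 * (δ / ε))) 0 := by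
    fun_prop
  have e1 := c1.eventually_lt (continuousAt_const (y := (1 : ℝ))) (by simp)
  have e2 := c2.eventually_lt (continuousAt_const (y := (1 / 16 : ℝ))) (by simp)
  have e3 := c3.eventually_lt (continuousAt_const (y := lam ^ 2)) (by simpa [hl2] using hqs)
  have e4 : ∀ᶠ δ : ℝ in 𝓝[>] 0, 0 < δ := self_mem_nhdsWithin
  obtain ⟨δ, hδ0, hδ1, hδ2, hδ3⟩ := (e4.and ((e1.and (e2.and e3)).filter_mono
    nhdsWithin_le_nhds)).exists
  obtain ⟨A, hA⟩ : ∃ A : ℝ, A = 2 * (∑ i ∈ Finset.range (k + 1), (2 / ε) ^ (i + 1)) + 1 :=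
    ⟨_, rfl⟩
  have hA0 : 0 ≤ A := by rw [hA]; positivity
  -- the choice of s0
  have h0 : Tendsto (fun s : ℕ => 1 / (s : ℝ)) atTop (𝓝 0) := tendsto_one_div_atTop_nhds_zero_nat
  have ts : Tendsto (fun s : ℕ => q * (1 + 1 / (s : ℝ)) ^ 2 *
      Real.exp (3 * (δ / ε) + 1 / (s : ℝ))) atTop (𝓝 (q * (1 + 0) ^ 2 *
        Real.exp (3 * (δ / ε) + 0))) :=
    ((tendsto_const_nhds.add h0).pow 2 |>.const_mul q).mul
      ((Real.continuous_exp.tendsto _).comp (tendsto_const_nhds.add h0))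
  have es := ts.eventually (gt_mem_nhds (show q * (1 + 0) ^ 2 *
        Real.exp (3 * (δ / ε) + 0) < lam ^ 2 by simpa using hδ3))
  obtain ⟨s1, hs1⟩ := eventually_atTop.1 es
  obtain ⟨s0, hs0⟩ : ∃ s0 : ℕ, s0 = max s1 2 := ⟨_, rfl⟩
  obtain ⟨Sg, hSg⟩ : ∃ Sg : ℝ, Sg = ∑ i ∈ Finset.range (k + 1), (2 / ε) ^ i := ⟨_, rfl⟩
  have hSg0 : 0 ≤ Sg := by rw [hSg]; positivity
  obtain ⟨W, hW⟩ : ∃ W : ℝ, W = 4 * ((((k : ℝ) + 1) * (2 + 2 / ε) ^ (k + 1)) * (1 + A)) :=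
    ⟨_, rfl⟩
  have hW0 : 0 ≤ W := by rw [hW]; positivity
  obtain ⟨Dn, hDn⟩ : ∃ Dn : ℝ, Dn = 2 + s0 + 32 * Sg + W / δ := ⟨_, rfl⟩
  have hWδ : 0 ≤ W / δ := by positivity
  have hs00 : (0 : ℝ) ≤ s0 := Nat.cast_nonneg _
  have hDn0 : 0 < Dn := by rw [hDn]; linarith
  refine ⟨lam, M, δ, θ, A, 1 / Dn, k, s0, hl0, hl1, hM0, hδ0, hθ0, hθ1, hk1,
    hs0 ▸ le_max_right _ _, by positivity, ?_, ?_, ?_, hδ1.le, le_of_eq hM.symm, hA, ?_, ?_⟩
  · apply one_div_le_one_div_of_le (by norm_num)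
    rw [hDn]; linarith
  · rw [one_div_mul_eq_div, div_le_one hDn0, hDn]
    linarith
  · intro s hs
    rw [← hq]
    rw [hs0] at hs
    exact (hs1 s (le_trans (le_max_left _ _) hs)).le
  · have h3 : 4 * (2 / ε) * ((((k : ℝ) + 1) * lam ^ k) * l) ≤ 1 / 16 := by
      calc 4 * (2 / ε) * ((((k : ℝ) + 1) * lam ^ k) * l) ≤ 4 * (2 / ε) * (ε / 128) := by
            rw [hlθ]
            exact mul_le_mul_of_nonneg_left hk (by positivity)
        _ = 1 / 16 := by field_simp; norm_num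
    have h4 : 4 * (2 / ε * (((k : ℝ) + 1) * lam ^ k +
        4 * (δ / ε * (1 + 2 / ε + 4 * M)) / (1 - lam) ^ 2) +
        δ / ε * (1 + 2 / ε + 4 * M)) * l =
        4 * (2 / ε) * ((((k : ℝ) + 1) * lam ^ k) * l) + 4 * (2 / ε *
      (4 * (δ / ε * (1 + 2 / ε + 4 * M)) / (1 - lam) ^ 2) + δ / ε * (1 + 2 / ε + 4 * M)) * l := by
      ring
    have h5 : 2 * (1 / Dn) * Sg ≤ 1 / 16 := by
      have e : 2 * (1 / Dn) * Sg = 2 * Sg / Dn := by ring
      rw [e, div_le_div_iff₀ hDn0 (by norm_num), hDn]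
      linarith
    rw [← hl, ← hSg, h4, hθ2]
    linarith
  · have e : 4 * (1 / Dn * (((k : ℝ) + 1) * (2 + 2 / ε) ^ (k + 1)) * (1 + A)) = W / Dn := by
      rw [hW]; ring
    rw [e, div_le_iff₀ hDn0, hDn]
    have h6 : δ * (W / δ) = W := by field_simp
    nlinarith

end Pool.Agent.Y447.HE
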