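import Mathlib
import Pool.Agent.Y992.HE.Stm

set_option autoImplicit false
set_option linter.all false

/-! Project HE: subgraphs of Cartesian products. -/

namespace Pool.Agent.Y447.HE

open Finset Pool.Agent.Y992.HE

theorem t_PROD : S_PROD := by
  classical
  intro n b K X H V G x hconn hdeg hinj hadj
  set D : V → V → ℕ := fun u w => ∑ i, (H i).dist (x u i) (x w i) with hD
  have hD' : ∀ u w, D u w = ∑ i, (H i).dist (x u i) (x w i) := fun _ _ => rfl
  refine { symm := ?_, zero := ?_, lip := ?_, back := ?_ }
  · intro v w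
    exact sum_congr rfl fun i _ => SimpleGraph.dist_comm
  · intro v w
    rw [sum_eq_zero_iff]
    constructor
    · intro h
      apply hinj
      funext i
      exact ((hconn i).dist_eq_zero_iff).1 (h i (mem_univ i))
    · rintro rfl i _
      exact SimpleGraph.dist_self
  · intro v u y huy
    obtain ⟨i, hi, hj⟩ := hadj u y huy
    have h1 : (H i).dist (x v i) (x u i) ≤ (H i).dist (x v i) (x y i) + 1 := by
      have h2 := (hconn i).dist_triangle (u := x v i) (v := x y i) (w := x u i)
      have h3 : (H i).dist (x y i) (x u i) = 1 := SimpleGraph.dist_eq_one_iff_adj.2 hi.symm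
      omega
    have e1 : ∀ w, ∑ j, (H j).dist (x v j) (x w j) =
        (∑ j ∈ univ.erase i, (H j).dist (x v j) (x w j)) + (H i).dist (x v i) (x w i) :=
      fun w => (sum_erase_add _ _ (mem_univ i)).symm
    have e2 : (∑ j ∈ univ.erase i, (H j).dist (x v j) (x u j)) =
        ∑ j ∈ univ.erase i, (H j).dist (x v j) (x y j) := by
      refine sum_congr rfl fun j hj' => ?_
      rw [hj j (ne_of_mem_erase hj')]
    have g1 := e1 u
    have g2 := e1 y
    show ∑ j, (H j).dist (x v j) (x u j) ≤ ∑ j, (H j).dist (x v j) (x y j) + 1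
    omega
  · intro v u hK S hS
    have hKu : ∑ i, (H i).dist (x v i) (x u i) ≤ K := hK
    set I : Finset (Fin n) := univ.filter fun i => x v i ≠ x u i with hI
    have hIc : I.card ≤ K := by
      calc I.card = ∑ i ∈ I, 1 := by rw [sum_const, smul_eq_mul, mul_one]
        _ ≤ ∑ i ∈ I, (H i).dist (x v i) (x u i) := by
            refine sum_le_sum fun i hi => ?_
            rw [hI, mem_filter] at hi
            exact Nat.pos_of_ne_zero fun h0 => hi.2 (((hconn i).dist_eq_zero_iff).1 h0)
        _ ≤ ∑ i, (H i).dist (x v i) (x u i) := sum_le_sum_of_subset (subset_univ _)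
        _ ≤ K := hKu
    have hex : ∀ y : V, ∃ i : Fin n → Prop, True := fun _ => ⟨fun _ => True, trivial⟩
    have hch : ∀ y ∈ S, ∃ i ∈ I, (H i).Adj (x u i) (x y i) ∧ ∀ j, j ≠ i → x u j = x y j := by
      intro y hy
      obtain ⟨hy1, hy2⟩ := hS y hy
      obtain ⟨i, hi, hj⟩ := hadj u y hy1
      refine ⟨i, ?_, hi, hj⟩
      rw [hI, mem_filter]
      refine ⟨mem_univ _, fun heq => ?_⟩
      have e1 : ∀ w, ∑ j, (H j).dist (x v j) (x w j) =
          (∑ j ∈ univ.erase i, (H j).dist (x v j) (x w j)) + (H i).dist (x v i) (x w i) :=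
        fun w => (sum_erase_add _ _ (mem_univ i)).symm
      have e2 : (∑ j ∈ univ.erase i, (H j).dist (x v j) (x u j)) =
          ∑ j ∈ univ.erase i, (H j).dist (x v j) (x y j) := by
        refine sum_congr rfl fun j hj' => ?_
        rw [hj j (ne_of_mem_erase hj')]
      have e3 : (H i).dist (x v i) (x u i) = 0 := by rw [heq]; exact SimpleGraph.dist_self
      have e4 : (H i).dist (x v i) (x y i) = 1 := by
        rw [heq]; exact SimpleGraph.dist_eq_one_iff_adj.2 hi
      have g1 := e1 u
      have g2 := e1 y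
      have hy3 : ∑ j, (H j).dist (x v j) (x y j) ≤ ∑ j, (H j).dist (x v j) (x u j) := hy2
      omega
    have hsub : S ⊆ I.biUnion fun i => S.filter fun y =>
        (H i).Adj (x u i) (x y i) ∧ ∀ j, j ≠ i → x u j = x y j := by
      intro y hy
      obtain ⟨i, hi, h⟩ := hch y hy
      rw [mem_biUnion]
      exact ⟨i, hi, mem_filter.2 ⟨hy, h⟩⟩
    have hfib : ∀ i ∈ I, (S.filter fun y =>
        (H i).Adj (x u i) (x y i) ∧ ∀ j, j ≠ i → x u j = x y j).card ≤ b := by
      intro i _
      have hinj' : Set.InjOn (fun y => x y i) ((S.filter fun y =>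
          (H i).Adj (x u i) (x y i) ∧ ∀ j, j ≠ i → x u j = x y j : Finset V) : Set V) := by
        intro y hy y' hy' heq
        rw [mem_coe, mem_filter] at hy hy'
        apply hinj
        funext j
        by_cases hji : j = i
        · subst hji
          exact heq
        · rw [← hy.2.2 j hji, ← hy'.2.2 j hji]
      rw [← card_image_of_injOn hinj']
      apply hdeg i (x u i)
      intro c hc
      obtain ⟨y, hy, rfl⟩ := mem_image.1 hc
      exact (mem_filter.1 hy).2.1
    have hcard : S.card ≤ I.card * b :=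
      (card_le_card hsub).trans (card_biUnion_le_card_mul _ _ _ hfib)
    have h2 : S.card ≤ b * K := hcard.trans (by rw [mul_comm]; exact Nat.mul_le_mul_left _ hIc)
    exact_mod_cast h2

end Pool.Agent.Y447.HE
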